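import Mathlib
import Pool.Agent.PMaj.Crit

/-!
# Positive majorants in arbitrary reproducing kernel Hilbert spaces: the exact criterion

`H` is a complex Hilbert space and `K : X → H`; an element `v` of `H` is seen as the function
`x ↦ ⟪K x, v⟫` on `X`, and the kernel is `k(x, y) = ⟪K x, K y⟫`.
-/

open scoped InnerProductSpace ComplexOrder ComplexConjugate

namespace Pool.Agent.Results.MP_68d84e_an.MajorantCriterion

open Pool.Agent.PMaj

/-- The exact criterion for the existence of positive majorants: every `f` in `H` has some `G` in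
`H` with `Re (G / δ) ≥ |f / δ|` on `X` if and only if a phase bound holds, with the same constants;
the constant `1` means that `k(x, y) / (δ x * conj (δ y))` is always real and nonnegative; a
nonnegative real part gives the constant `√2`; and each phase bound gives the factorisation of the
problem. -/
theorem result {X : Type*} {H : Type*} [NormedAddCommGroup H] [InnerProductSpace ℂ H]
    [CompleteSpace H] (K : X → H) (δ : X → ℂ) :
    ((∀ f : H, ∃ G : H, Majorises K δ G f) ↔ ∃ C : ℝ, PhaseBound K δ C) ∧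
    (∀ C : ℝ, 0 ≤ C →
      ((∀ f : H, ∃ G : H, ‖G‖ ≤ C * ‖f‖ ∧ Majorises K δ G f) ↔ PhaseBound K δ C)) ∧
    (PhaseBound K δ 1 ↔ ∀ x y, 0 ≤ ⟪K x, K y⟫_ℂ / (δ x * conj (δ y))) ∧
    ((∀ x y, 0 ≤ (⟪K x, K y⟫_ℂ / (δ x * conj (δ y))).re) → PhaseBound K δ (√2)) ∧
    ((∀ x, δ x ≠ 0) → (∃ h : H, ∀ x, 0 < (⟪K x, h⟫_ℂ / δ x).re) →
      ∀ C : ℝ, 0 ≤ C → PhaseBound K δ C → ∀ f : H, ∀ ε : ℝ, 0 < ε →
        ∃ (g : H) (b : X → ℂ), ‖g‖ ≤ C * ‖f‖ + ε ∧ (∀ x, ⟪K x, g⟫_ℂ ≠ 0) ∧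
          (∀ x, 0 < (⟪K x, g⟫_ℂ / δ x).re) ∧ (∀ x, ‖b x‖ ≤ 1) ∧
          ∀ x, ⟪K x, f⟫_ℂ = b x * ⟪K x, g⟫_ℂ) :=
  ⟨(exists_phaseBound_iff K δ).symm, fun C hC => (phaseBound_iff K δ C hC).symm,
    phaseBound_one_iff K δ, phaseBound_sqrt_two K δ,
    fun hδ ⟨h, hh⟩ C hC hP f ε hε => factor_of_phaseBound K δ hδ h hh C hC hP f ε hε⟩

end Pool.Agent.Results.MP_68d84e_an.MajorantCriterion
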