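import Mathlib
import Pool.Agent.PMaj.Pick

/-!
# Bounded times zero-free factorization: beyond complete Pick spaces

`H` is a complex Hilbert space and `K : X → H`; an element `v` of `H` is seen as the function
`x ↦ ⟪K x, v⟫` on `X`, and the kernel is `k(x, y) = ⟪K x, K y⟫`.
-/

open scoped InnerProductSpace ComplexConjugate

namespace Pool.Agent.Results.MP_68d84e_an.PositiveMajorant

open Pool.Agent.PMaj

/-- If the kernel has no zeros and the space has the scalar two point Pick property, then each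
`δ = k(·, z)` is positive for `K`. If `δ` is positive for `K`, then for every square summable
family `f i` in `H` and every `ε > 0` there are an element `g` of `H` without zeros and functions
`b i` on `X` with `f i = b i * g` and `∑ |b i|² ≤ 1` everywhere on `X`, with
`‖g‖ ≤ (2 ∑ ‖f i‖²)^(1/2) + ε`, and `Re (g / δ)` exceeds `(∑ |f i|²)^(1/2) / |δ|` on `X`. -/
theorem result {X : Type*} {H : Type*} [NormedAddCommGroup H] [InnerProductSpace ℂ H]
    [CompleteSpace H] (K : X → H) :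
    ((∀ x y, ⟪K x, K y⟫_ℂ ≠ 0) → TwoPointPick K →
      ∀ z, PositiveFor K fun x => ⟪K x, K z⟫_ℂ) ∧
    ∀ δ : X → ℂ, PositiveFor K δ →
      ∀ {ι : Type*} (f : ι → H), (Summable fun i => ‖f i‖ ^ 2) → ∀ ε : ℝ, 0 < ε →
        ∃ (g : H) (b : ι → X → ℂ), ‖g‖ ≤ √(2 * ∑' i, ‖f i‖ ^ 2) + ε ∧
          (∀ x, √(∑' i, ‖⟪K x, f i⟫_ℂ‖ ^ 2) / ‖δ x‖ < (⟪K x, g⟫_ℂ / δ x).re) ∧
          (∀ x, ⟪K x, g⟫_ℂ ≠ 0) ∧ (∀ i x, ⟪K x, f i⟫_ℂ = b i x * ⟪K x, g⟫_ℂ) ∧
          ∀ x, Summable (fun i => ‖b i x‖ ^ 2) ∧ ∑' i, ‖b i x‖ ^ 2 ≤ 1 :=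
  ⟨fun hne hP z => positiveFor_of_twoPointPick K hne hP z,
    fun δ hδ _ f hf ε hε => factor K δ hδ f hf ε hε⟩

end Pool.Agent.Results.MP_68d84e_an.PositiveMajorant
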